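import Pool.Agent.helper53.DC.SpecA

set_option autoImplicit false

namespace Pool.Agent.helper53.DC

open CoxeterSystem

section

variable {B W : Type} [Group W] {M : CoxeterMatrix B} (cs : CoxeterSystem M W)

/-- the nontrivial element -/
abbrev A3_a : Multiplicative (ZMod 2) := Multiplicative.ofAdd 1

theorem A3_cases (g : Multiplicative (ZMod 2)) : g = 1 ∨ g = A3_a := by
  revert g; decide

open Classical in
/-- label of the walls -/
noncomputable def A3_lab (r v : Wall cs) : Multiplicative (ZMod 2) := if v = r then A3_a else 1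

theorem A3_lab_sq (r v : Wall cs) : A3_lab cs r v * A3_lab cs r v = 1 := by
  unfold A3_lab
  split_ifs <;> decide

theorem A3_smul_wall (g x : W) (i : B) : wall cs (g * x) i = g • wall cs x i := by
  apply Subtype.ext
  rw [smul_wall_val, wall_val, wall_val]
  group

theorem A3_smul_lab (g : W) (r v : Wall cs) : A3_lab cs r (g • v) = A3_lab cs (g⁻¹ • r) v := by
  unfold A3_lab
  by_cases h : g • v = r
  · rw [if_pos h, if_pos]
    rw [← h, inv_smul_smul]
  · rw [if_neg h, if_neg]
    intro h'
    apply h
    rw [h', smul_inv_smul]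

theorem A3 (hA2 : A2_stmt) : A3_stmt := by
  intro B W _ M cs r₀ x₀ i₀
  have hex : ∀ r : Wall cs, ∃ c : W → Multiplicative (ZMod 2), c 1 = 1 ∧
      ∀ x i, c (x * cs.simple i) = c x * A3_lab cs r (wall cs x i) := fun r =>
    hA2 cs (A3_lab cs r) (A3_lab_sq cs r) (fun _ _ _ => mul_comm _ _)
  choose c hc1 hc using hex
  -- the cocycle rule
  have hcoc : ∀ (x : W) (r : Wall cs) (g : W), c r (g * x) = c r g * c (g⁻¹ • r) x := by
    intro x
    induction x using cs.simple_induction_right with
    | one => intro r g; rw [mul_one, hc1, mul_one]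
    | mul_simple_right x i ih =>
      intro r g
      rw [← mul_assoc, hc, ih, hc, A3_smul_wall, A3_smul_lab, mul_assoc]
  have hlabself : ∀ r : Wall cs, A3_lab cs r r = A3_a := fun r => if_pos rfl
  have hrr : ∀ r : Wall cs, c r r.1 = A3_a := by
    rintro ⟨r, y, i, hr⟩
    have hw : wall cs y i = (⟨r, y, i, hr⟩ : Wall cs) := Subtype.ext hr.symm
    rw [← hw]
    show c (wall cs y i) (y * cs.simple i * y⁻¹) = A3_a
    have h1 : (y * cs.simple i)⁻¹ • wall cs y i = y⁻¹ • wall cs y i := by
      apply Subtype.ext
      rw [smul_wall_val, smul_wall_val, wall_val]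
      group
    have h2 := hcoc y⁻¹ (wall cs y i) (y * cs.simple i)
    rw [h1, hc, hlabself] at h2
    have h3 := hcoc y⁻¹ (wall cs y i) y
    rw [mul_inv_cancel, hc1] at h3
    rw [h2, mul_right_comm, ← h3, one_mul]
  have hrx : ∀ (r : Wall cs) (x : W), c r (r.1 * x) = A3_a * c r x := by
    intro r x
    have h1 : (r.1)⁻¹ • r = r := by
      apply Subtype.ext
      rw [smul_wall_val]
      group
    rw [hcoc, hrr, h1]
  -- inversions
  have hinv : ∀ (r : Wall cs) (ω : List B), r.1 ∉ cs.leftInvSeq ω → c r (cs.wordProd ω) = 1 := by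
    intro r ω
    induction ω using List.reverseRecOn with
    | nil => intro _; rw [cs.wordProd_nil, hc1]
    | append_singleton ω i ih =>
      intro h
      rw [← List.concat_eq_append, cs.leftInvSeq_concat, List.concat_eq_append, List.mem_append,
        List.mem_singleton, not_or] at h
      rw [cs.wordProd_append, cs.wordProd_singleton, hc, ih h.1, one_mul]
      unfold A3_lab
      rw [if_neg]
      intro h'
      apply h.2
      rw [← h', wall_val]
  have hless : ∀ (r : Wall cs) (x : W), c r x = A3_a → cs.length (r.1 * x) < cs.length x := by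
    intro r x hx
    obtain ⟨ω, hω, rfl⟩ := cs.exists_isReduced x
    by_cases hmem : r.1 ∈ cs.leftInvSeq ω
    · exact (cs.isLeftInversion_of_mem_leftInvSeq hω hmem).2
    · have := hinv r ω hmem
      rw [hx] at this
      exact absurd this (by decide)
  have hmem : ∀ (r : Wall cs) (x : W), x ∈ (cw cs).H r ↔ c r x = A3_a := by
    intro r x
    rw [mem_cw]
    constructor
    · intro h
      rcases A3_cases (c r x) with h1 | h1
      · exfalso
        have h2 := hrx r x
        rw [h1, mul_one] at h2
        have h3 := hless r (r.1 * x) h2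
        rw [← mul_assoc, r.2.mul_self, one_mul] at h3
        omega
      · exact h1
    · exact hless r x
  -- conclusion
  unfold WS.Sep
  rw [hmem, hmem, hc]
  by_cases h : wall cs x₀ i₀ = r₀
  · have hl : A3_lab cs r₀ (wall cs x₀ i₀) = A3_a := if_pos h
    rw [hl]
    constructor
    · intro _; exact h.symm
    · intro _
      rcases A3_cases (c r₀ x₀) with h1 | h1 <;> rw [h1] <;> decide
  · have hl : A3_lab cs r₀ (wall cs x₀ i₀) = 1 := if_neg h
    rw [hl, mul_one]
    constructor
    · intro h'; exact absurd Iff.rfl h'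
    · intro h'; exact absurd h'.symm h

end

end Pool.Agent.helper53.DC
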