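import Pool.Agent.helper53.DC.SpecH

set_option autoImplicit false

namespace Pool.Agent.helper53.DC

open CoxeterSystem

theorem H5_near {B W : Type} [Group W] {M : CoxeterMatrix B} (cs : CoxeterSystem M W)
    (u : Wall cs) (o : W) : ∃ z ∈ Car cs u, ∀ z' ∈ Car cs u, dd cs o z ≤ dd cs o z' := by
  have hne : (Car cs u).Nonempty := by
    obtain ⟨r, y, i, hr⟩ := u
    refine ⟨y, i, ?_⟩
    show r * y = y * cs.simple i
    rw [hr]; group
  have hne' : ((dd cs o) '' (Car cs u)).Nonempty := hne.image _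
  obtain ⟨z, hz, hz'⟩ := Nat.sInf_mem hne'
  refine ⟨z, hz, fun z' hz'' => ?_⟩
  rw [hz']
  exact Nat.sInf_le ⟨z', hz'', rfl⟩

theorem H5 (hH1 : H1_stmt) (hH2 : H2_stmt) (hA7 : A7_stmt) (hA9 : A9_stmt) : H5_stmt := by
  intro B W _ _ M cs δ hyp
  obtain ⟨N, hN⟩ : ∃ N, ∀ i j, M i j ≤ N := by
    cases nonempty_fintype B
    classical
    refine ⟨∑ i, ∑ j, M i j, fun i j => ?_⟩
    calc M i j ≤ ∑ j, M i j :=
          Finset.single_le_sum (f := fun j => M i j) (fun _ _ => Nat.zero_le _) (Finset.mem_univ j)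
      _ ≤ ∑ i, ∑ j, M i j :=
          Finset.single_le_sum (f := fun i => ∑ j, M i j) (fun _ _ => Nat.zero_le _)
            (Finset.mem_univ i)
  have hz : ∀ u : Wall cs, ∃ z ∈ Car cs u, ∀ z' ∈ Car cs u, dd cs 1 z ≤ dd cs 1 z' := fun u =>
    H5_near cs u 1
  choose z hz1 hz2 using hz
  refine ⟨16 * δ + 7 + 2 * N, fun F hF => ?_⟩
  rcases F.eq_empty_or_nonempty with rfl | hne
  · exact ⟨1, fun u hu => absurd hu (Finset.notMem_empty u)⟩
  obtain ⟨u, hu, hmax⟩ := Finset.exists_max_image F (fun u => dd cs 1 (z u)) hne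
  refine ⟨z u, fun v hv => ?_⟩
  by_cases hvu : v = u
  · rw [hvu, (mem_Car cs u (z u)).mp (hz1 u)]
    omega
  · have hres := hA7 cs u v (hF u hu v hv (fun h => hvu h.symm))
    obtain ⟨p, hp, hpN⟩ := hA9 cs N hN u v hres
    have h1 := hH2 cs δ hyp u 1 (z u) p 1 (hz1 u) (hz2 u) ((mem_Car cs u p).mp hp).le
    have h2 := hH2 cs δ hyp v 1 (z v) p (2 * N) (hz1 v) (hz2 v) hpN
    have h3 := hyp 1 (z u) p (z v)
    have h4 := hH1 cs δ hyp v (z v) p (z u)
    have h5 : dd cs 1 (z v) ≤ dd cs 1 (z u) := hmax v hv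
    have h6 := dd_tri cs 1 (z v) p
    have h7 := (mem_Car cs v (z v)).mp (hz1 v)
    have h8 := dd_comm cs (z u) (z v)
    have h9 := dd_comm cs p (z v)
    rw [h7] at h4
    rw [h9] at h3
    have h10 : max 1 (DD cs v p) ≤ 1 + 2 * N := by
      rcases max_cases 1 (DD cs v p) with ⟨h, _⟩ | ⟨h, _⟩ <;> omega
    rcases le_total (dd cs 1 (z u) + dd cs (z v) p) (dd cs 1 (z v) + dd cs (z u) p) with h | h
    · rw [max_eq_right h] at h3
      omega
    · rw [max_eq_left h] at h3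
      omega

theorem H5b (hH5 : H5_stmt) (hA19b : A19b_stmt) : H5b_stmt := by
  intro B W _ _ M cs δ hyp
  obtain ⟨c6, hc6⟩ := hH5 cs δ hyp
  obtain ⟨N, hN⟩ := hA19b cs c6
  refine ⟨N, fun F hF => ?_⟩
  obtain ⟨z, hz⟩ := hc6 F hF
  exact hN z F hz

end Pool.Agent.helper53.DC
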