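import Pool.Agent.helper58.DC.Spec1

/-! # dq:AE. The action of `KE X c` on assembled chains -/

set_option autoImplicit false

namespace Pool.Agent.helper43.DC

open Pool.Agent.helper58.DC

lemma AE_mem {H : Type} [Group H] (α : MulAut H) (P : Subgroup H) (y : H) :
    y ∈ P.map α.toMonoidHom ↔ α⁻¹ y ∈ P := by
  rw [Subgroup.mem_map]
  constructor
  · rintro ⟨x, hx, rfl⟩
    have : α⁻¹ (α.toMonoidHom x) = x := by
      show (α⁻¹ * α) x = x
      rw [inv_mul_cancel]; rfl
    rwa [this]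
  · intro h
    refine ⟨α⁻¹ y, h, ?_⟩
    show (α * α⁻¹) y = y
    rw [mul_inv_cancel]; rfl

lemma AE_pi {G E A L T : Type} [Group G] [Group E] [Group A] [Group L] [MulAction L T]
    (X : Extension G E A) (c : Cocycle L T A) (e : KE X c) (P : T → Subgroup G) :
    (Subgroup.pi Set.univ P).map ((kext X c).act e).toMonoidHom =
      Subgroup.pi Set.univ fun s => (P (e.l⁻¹ • s)).map
        (X.act (e.f (e.l⁻¹ • s))).toMonoidHom := by
  ext y
  rw [AE_mem, Subgroup.mem_pi, Subgroup.mem_pi]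
  constructor
  · intro h s _
    rw [AE_mem]
    have h1 := h (e.l⁻¹ • s) (Set.mem_univ _)
    rw [kext_act_symm, smul_inv_smul] at h1
    exact h1
  · intro h t _
    have h1 := h (e.l • t) (Set.mem_univ _)
    rw [AE_mem, inv_smul_smul] at h1
    rw [kext_act_symm]
    exact h1

theorem AE (hNM : NM_stmt) : AE_stmt := by
  intro G E A L T _ _ _ _ _ _ _ X c e C W
  have key : ∀ r : T → ℕ,
      (Subgroup.pi Set.univ fun t => nth (C t) (r t)).map ((kext X c).act e).toMonoidHom =
        Subgroup.pi Set.univ fun s =>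
          nth (chainMap (X.act (e.f (e.l⁻¹ • s))) (C (e.l⁻¹ • s))) (r (e.l⁻¹ • s)) := by
    intro r
    rw [AE_pi]
    congr 1
    funext s
    exact ((hNM G (X.act (e.f (e.l⁻¹ • s))) (C (e.l⁻¹ • s))).1 (r (e.l⁻¹ • s))).symm
  ext Q
  have h1 : Q ∈ chainMap ((kext X c).act e) (asmC C W) ↔ ∃ r ∈ W,
      (Subgroup.pi Set.univ fun t => nth (C t) (r t)).map ((kext X c).act e).toMonoidHom = Q := by
    unfold chainMap asmC
    simp only [Finset.mem_image, exists_exists_and_eq_and]
  have h2 : Q ∈ asmC (fun s => chainMap (X.act (e.f (e.l⁻¹ • s))) (C (e.l⁻¹ • s))) (wAct e.l W) ↔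
      ∃ r ∈ W, (Subgroup.pi Set.univ fun s =>
          nth (chainMap (X.act (e.f (e.l⁻¹ • s))) (C (e.l⁻¹ • s))) (r (e.l⁻¹ • s))) = Q := by
    unfold asmC wAct
    simp only [Finset.mem_image, exists_exists_and_eq_and]
  rw [h1, h2]
  simp only [key]

end Pool.Agent.helper43.DC
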