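import Pool.Agent.helper53.DC.SpecI

set_option autoImplicit false

namespace Pool.Agent.helper53.DC

open CoxeterSystem

theorem D3_mono (T G : ℕ) (u : ℕ → ℕ) (h : ∀ s < T, u s < u (s + 1) ∧ u (s + 1) ≤ u s + G) :
    ∀ j s, s + j ≤ T → u s + j ≤ u (s + j) ∧ u (s + j) ≤ u s + j * G := by
  intro j
  induction j with
  | zero => intro s _; simp
  | succ j ih =>
    intro s hs
    obtain ⟨h1, h2⟩ := ih s (by omega)
    obtain ⟨h3, h4⟩ := h (s + j) (by omega)
    have e : s + (j + 1) = s + j + 1 := by ring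
    rw [e]
    constructor
    · omega
    · calc u (s + j + 1) ≤ u (s + j) + G := h4
        _ ≤ u s + j * G + G := by omega
        _ = u s + (j + 1) * G := by ring

theorem D3 (hI6 : I6_stmt) (hI7 : I7_stmt) (hI8 : I8_stmt) (hD2 : D2_stmt) (hA6 : A6_stmt)
    (hA14 : A14_stmt) (hA15 : A15_stmt) (hW1 : W1_stmt) (hA19 : A19_stmt) : D3_stmt := by
  intro B W _ _ M cs g0 D a μ hG0 hDB ha hμ hFS
  obtain ⟨G2, hG2⟩ := hD2 cs g0 D hG0 hDB
  obtain ⟨k0, hk0⟩ := pow_unbounded_of_one_lt (2 / μ) (show (1 : ℝ) < 1 + 2 * μ by linarith)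
  have hk0' : 2 ≤ μ * (1 + 2 * μ) ^ k0 := by
    rw [div_lt_iff₀ hμ] at hk0
    linarith
  obtain ⟨Z, _, _, β, hβ1, hβ2, hβ3, hβ4⟩ := hFS ((k0 + 1) * G2 + 1)
  obtain ⟨ρ, hρ1, hρ2⟩ := hI7 cs Z β a hβ1 hβ2 hβ3
  obtain ⟨-, -, -, -, w1, -⟩ := hW1 (cw cs) (hA6 cs)
  -- products
  let nv : Wall cs → LL Z := fun r => (-a, β r)
  have hlf : ∀ r r', lf (nv r) (nv r') = -(a ^ 2) + ∑ z, β r z * β r' z := by
    intro r r'
    show -(-a * -a) + ∑ z, β r z * β r' z = _
    ring
  have hself : ∀ r, lf (nv r) (nv r) = 1 := by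
    intro r; rw [hlf, hβ2]; ring
  have hx0 : ∀ r, lf (nv r) x0 = a := by
    intro r; rw [lf_x0_right]; show - -a = a; ring
  have hcross : ∀ r r', (cw cs).Cross r r' → lf (nv r) (nv r') = 0 := by
    intro r r' h; rw [hlf, hβ3 r r' h]; ring
  have hdis : ∀ r r', (cw cs).Dis r r' → Vis cs ((k0 + 1) * G2 + 1) r r' →
      lf (nv r) (nv r') ≤ -μ := by
    intro r r' h h'; rw [hlf]; have := hβ4 r r' h h'; linarith
  -- the main estimate
  have key : ∀ g : W, g ≠ 1 → 0 < (ρ g x0).1 ∧ ∃ T : ℕ, dd cs 1 g ≤ (T + 2) * G2 ∧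
      1 + (a * 2 ^ (T / (k0 + 1))) ^ 2 ≤ (ρ g x0).1 ^ 2 := by
    intro g hg
    obtain ⟨x, w, hG, hx0', hxn⟩ := hA14 cs 1 g
    have hpos : 0 < dd cs 1 g := by
      rcases Nat.eq_zero_or_pos (dd cs 1 g) with h | h
      · exact absurd ((dd_eq_zero cs).mp h).symm hg
      · exact h
    obtain ⟨N, hN⟩ : ∃ N, N = dd cs 1 g := ⟨_, rfl⟩
    rw [← hN] at hG hxn hpos
    obtain ⟨b1, b2, b3, -, -⟩ := hA15 cs N x w hG
    obtain ⟨T, u, hu0, hus, huT, hNT, hudis⟩ := hG2 N x w hpos hG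
    have hmono := D3_mono T G2 u hus
    have hstep : ∀ k < N, ∃ i, w k = wall cs (x k) i ∧ x (k + 1) = x k * cs.simple i := by
      intro k hk
      obtain ⟨i, hi⟩ := hG.adj k hk
      refine ⟨i, ?_, hi⟩
      apply Subtype.ext
      rw [wall_val, ← hi, hG.step k hk, mul_inv_cancel_right]
    have hform := hρ2 N x w hx0' hstep
    rw [hxn] at hform
    have hvis : ∀ p q, p < q → q < N → q - p ≤ (k0 + 1) * G2 →
        Vis cs ((k0 + 1) * G2 + 1) (w p) (w q) := by
      intro p q hpq hqN hle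
      refine ⟨x p, x (q + 1), ?_, ?_, ?_⟩
      · have := b1 p (q + 1) (by omega) (by omega)
        omega
      · exact (b2 p p (q + 1) (by omega) (by omega) (by omega)).mpr ⟨le_rfl, by omega⟩
      · exact (b2 q p (q + 1) (by omega) (by omega) (by omega)).mpr ⟨by omega, by omega⟩
    have huN : ∀ s ≤ T, u s < N := by
      intro s hs
      have := (hmono (T - s) s (by omega)).1
      have e : s + (T - s) = T := by omega
      rw [e] at this
      omega
    obtain ⟨c1, c2⟩ := hI6 (fun k => nv (w k)) a μ N G2 T k0 u ha hμ.le hk0'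
      (fun i _ => ⟨hself _, hx0 _⟩)
      (by
        intro p q hpq hqN hle
        rcases w1 (w p) (w q) with h | h | h
        · have := b3 p q (by omega) hqN h
          omega
        · exact (hcross _ _ h).le
        · have := hdis _ _ h (hvis p q hpq hqN hle)
          show lf (nv (w p)) (nv (w q)) ≤ 0
          linarith)
      hus hu0 huT hNT
      (by
        intro s s' hss hs'T hsk
        have e : s + (s' - s) = s' := by omega
        obtain ⟨d1, d2⟩ := hmono (s' - s) s (by omega)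
        rw [e] at d1 d2
        refine hdis _ _ (hudis s s' hss hs'T) (hvis _ _ (by omega) (huN s' hs'T) ?_)
        have h3 : (s' - s) * G2 ≤ (k0 + 1) * G2 := Nat.mul_le_mul_right _ (by omega)
        omega)
    refine ⟨?_, T, ?_, ?_⟩
    · rw [hform]; exact c1.2
    · rw [← hN]
      obtain ⟨d1, d2⟩ := hmono T 0 (by omega)
      rw [zero_add] at d1 d2
      calc N ≤ u T + G2 := hNT
        _ ≤ u 0 + T * G2 + G2 := by omega
        _ ≤ G2 + T * G2 + G2 := by omega
        _ = (T + 2) * G2 := by ring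
    · rw [hform]; exact c2
  have hone : (ρ 1 (x0 : LL Z)).1 = 1 := by
    rw [map_one]; rfl
  refine hI8 Z ρ hρ1 ?_ ?_ ?_
  · intro g
    by_cases hg : g = 1
    · rw [hg, hone]; exact one_pos
    · exact (key g hg).1
  · intro g hg
    obtain ⟨h1, T, -, h2⟩ := key g hg
    have h3 : 0 < (a * 2 ^ (T / (k0 + 1))) ^ 2 := by positivity
    nlinarith
  · intro C
    obtain ⟨m, hm⟩ := pow_unbounded_of_one_lt (C / a) (show (1 : ℝ) < 2 by norm_num)
    rw [div_lt_iff₀ ha] at hm
    refine (hA19 cs 1 ((m * (k0 + 1) + 2) * G2)).subset ?_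
    intro g hgC
    show dd cs 1 g ≤ (m * (k0 + 1) + 2) * G2
    have hgC' : (ρ g x0).1 ≤ C := hgC
    by_cases hg : g = 1
    · rw [hg, dd_self]; exact Nat.zero_le _
    · obtain ⟨h1, T, h2, h3⟩ := key g hg
      have h4 : T / (k0 + 1) < m := by
        by_contra hcon
        have h5 : (2 : ℝ) ^ m ≤ 2 ^ (T / (k0 + 1)) :=
          pow_le_pow_right₀ (by norm_num) (not_lt.mp hcon)
        have h6 : a * 2 ^ m ≤ a * 2 ^ (T / (k0 + 1)) := mul_le_mul_of_nonneg_left h5 ha.le
        have h7 : C < a * 2 ^ (T / (k0 + 1)) := by linarith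
        have h8 : 0 < C := by linarith
        nlinarith
      have h5 : T < m * (k0 + 1) := by
        rwa [Nat.div_lt_iff_lt_mul (by omega)] at h4
      exact h2.trans (Nat.mul_le_mul_right _ (by omega))

end Pool.Agent.helper53.DC
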