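import Pool.Agent.helper53.DC.SpecH

set_option autoImplicit false

namespace Pool.Agent.helper53.DC

open CoxeterSystem

theorem H1 : H1_stmt := by
  intro B W _ M cs δ hyp r x p z
  have h := hyp z x (r.1 * z) p
  have e1 : dd cs z (r.1 * z) = DD cs r z := rfl
  have e2 : dd cs (r.1 * z) p = dd cs z (r.1 * p) := by
    rw [← dd_left cs r.1 z (r.1 * p), ← mul_assoc, r.2.mul_self, one_mul]
  have e3 : dd cs x (r.1 * z) = dd cs z (r.1 * x) := by
    rw [← dd_left cs r.1 z (r.1 * x), ← mul_assoc, r.2.mul_self, one_mul, dd_comm]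
  rw [e1, e2, e3] at h
  have t1 := dd_tri cs z p (r.1 * p)
  have t2 := dd_tri cs z x (r.1 * x)
  have d1 : dd cs p (r.1 * p) = DD cs r p := rfl
  have d2 : dd cs x (r.1 * x) = DD cs r x := rfl
  rw [d1] at t1
  rw [d2] at t2
  have c1 := dd_comm cs z x
  have m1 := le_max_left (DD cs r x) (DD cs r p)
  have m2 := le_max_right (DD cs r x) (DD cs r p)
  rcases le_total (dd cs z x + dd cs z (r.1 * p)) (dd cs z p + dd cs z (r.1 * x)) with h' | h'
  · rw [max_eq_right h'] at h
    omega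
  · rw [max_eq_left h'] at h
    omega

theorem H2 (hH1 : H1_stmt) (hA11 : A11_stmt) : H2_stmt := by
  intro B W _ M cs δ hyp r o z p c hz hmin hp
  by_contra hcon
  obtain ⟨G, hG⟩ : ∃ G, G = dd cs o z + dd cs z p - dd cs o p := ⟨_, rfl⟩
  have t1 := dd_tri cs o p z
  have c1 := dd_comm cs p z
  obtain ⟨q, hq1, hq2⟩ := exists_geo cs z p (G / 2) (by omega)
  have h := hyp o z q p
  have c2 := dd_comm cs q p
  have c3 := dd_comm cs z q
  obtain ⟨z', hz', hd, -⟩ := hA11 cs r q
  have h1 := hH1 cs δ hyp r z p q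
  have h7 := (mem_Car cs r z).mp hz
  rw [h7] at h1
  have h10 : max 1 (DD cs r p) ≤ 1 + c := by
    rcases max_cases 1 (DD cs r p) with ⟨h, _⟩ | ⟨h, _⟩ <;> omega
  have h11 := hmin z' hz'
  have t2 := dd_tri cs o q z'
  rcases le_total (dd cs o z + dd cs q p) (dd cs o p + dd cs z q) with h' | h'
  · rw [max_eq_right h'] at h
    omega
  · rw [max_eq_left h'] at h
    omega

end Pool.Agent.helper53.DC
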